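import Pool.Agent.H987.Z.StE

/-! Proof of `S_lay` (F3): translation to layers and invariance. -/

set_option autoImplicit false
set_option linter.unusedSectionVars false
set_option linter.overlappingInstances false

open scoped BigOperators InnerProductSpace Topology
open Filter MeasureTheory

namespace Pool.Agent.H619.Z987

open Pool.Agent.H987.Z
open Pool.Agent.Y662.TR (LL Cf Mw dv hu Cf_apply Cf_dv Mw_apply ll_ext add_coord sub_coord smul_coord)
open Pool.Agent.TH369.AN (Rz rz_eq rz_uniq)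

section bij

variable {d : ℕ} {G : Type} [Group G]

/-- the bijection `(x, f) ↦ f * ι x` -/
noncomputable def Phi (ι : Multiplicative (Fin d → ℤ) →* G) (χ : G →* Multiplicative (Fin d → ℤ))
    (h : ∀ x, χ (ι x) = x) : ((Fin d → ℤ) × χ.ker) ≃ G where
  toFun p := (p.2 : G) * ι (Multiplicative.ofAdd p.1)
  invFun g := (Multiplicative.toAdd (χ g), ⟨g * (ι (χ g))⁻¹, by
    rw [MonoidHom.mem_ker, map_mul, map_inv, h, mul_inv_cancel]⟩)
  left_inv p := by
    obtain ⟨x, f⟩ := p
    have hf : χ (f : G) = 1 := f.2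
    have h1 : χ ((f : G) * ι (Multiplicative.ofAdd x)) = Multiplicative.ofAdd x := by
      rw [map_mul, hf, one_mul, h]
    refine Prod.ext ?_ (Subtype.ext ?_)
    · change Multiplicative.toAdd (χ ((f : G) * ι (Multiplicative.ofAdd x))) = x
      rw [h1]
      rfl
    · change (f : G) * ι (Multiplicative.ofAdd x) *
        (ι (χ ((f : G) * ι (Multiplicative.ofAdd x))))⁻¹ = f
      rw [h1, mul_inv_cancel_right]
  right_inv g := by
    change g * (ι (χ g))⁻¹ * ι (Multiplicative.ofAdd (Multiplicative.toAdd (χ g))) = g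
    rw [ofAdd_toAdd, inv_mul_cancel_right]

theorem Phi_apply (ι : Multiplicative (Fin d → ℤ) →* G) (χ : G →* Multiplicative (Fin d → ℤ))
    (h : ∀ x, χ (ι x) = x) (p : (Fin d → ℤ) × χ.ker) :
    Phi ι χ h p = (p.2 : G) * ι (Multiplicative.ofAdd p.1) := rfl

end bij

section transport

variable {G κ : Type} [Group G]

/-- the transported right action -/
def rh (Φ : κ ≃ G) (s : G) : Equiv.Perm κ := (Φ.trans (Equiv.mulRight s)).trans Φ.symm

theorem rh_apply (Φ : κ ≃ G) (s : G) (x : κ) : rh Φ s x = Φ.symm (Φ x * s) := rfl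

theorem rh_RA (Φ : κ ≃ G) : RA (rh Φ) where
  one x := by rw [rh_apply, mul_one, Equiv.symm_apply_apply]
  mul s t x := by
    rw [rh_apply, rh_apply, rh_apply, Equiv.apply_symm_apply, mul_assoc]

theorem mr_RA : RA (fun s : G => Equiv.mulRight s) where
  one x := by simp
  mul s t x := by simp [mul_assoc]

/-- the translation to the point `p` -/
def tp (Φ : κ ≃ G) (p : κ) : G ≃ κ := (Equiv.mulLeft (Φ p)).trans Φ.symm

theorem tp_apply (Φ : κ ≃ G) (p : κ) (g : G) : tp Φ p g = Φ.symm (Φ p * g) := rfl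

theorem tp_one (Φ : κ ≃ G) (p : κ) : tp Φ p 1 = p := by
  rw [tp_apply, mul_one, Equiv.symm_apply_apply]

theorem tp_mul (Φ : κ ≃ G) (p : κ) (g s : G) : tp Φ p (g * s) = rh Φ s (tp Φ p g) := by
  rw [rh_apply, tp_apply, tp_apply, Equiv.apply_symm_apply, mul_assoc]

/-- the intertwining of the operators -/
theorem inter (hc : S_conv) (Φ : κ ≃ G) (b : G → ℝ) (hb : Sy b) (p : κ) (V : κ → ℝ) (u : LL κ) :
    HV (KT b) (fun g => V (tp Φ p g)) (Cf (tp Φ p) (tp Φ p).injective u) =
      Cf (tp Φ p) (tp Φ p).injective (HV (KA (rh Φ) b) V u) := by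
  apply ll_ext
  intro g
  have h1 := ((hc G G (fun s => Equiv.mulRight s) mr_RA b b hb hb).1
    (Cf (tp Φ p) (tp Φ p).injective u) g).2
  have h2 := ((hc G κ (rh Φ) (rh_RA Φ) b b hb hb).1 u (tp Φ p g)).2
  rw [Cf_apply]
  change KT b (Cf (tp Φ p) (tp Φ p).injective u) g +
    Mw 1 (fun g => V (tp Φ p g)) (Cf (tp Φ p) (tp Φ p).injective u) g =
    KA (rh Φ) b u (tp Φ p g) + Mw 1 V u (tp Φ p g)
  rw [Mw_apply, Mw_apply, Cf_apply, h2]
  congr 1
  change KA (fun s => Equiv.mulRight s) b (Cf (tp Φ p) (tp Φ p).injective u) g = _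
  rw [h1]
  refine tsum_congr fun s => ?_
  rw [Cf_apply]
  change _ * u (tp Φ p (g * s)) = _
  rw [tp_mul]

theorem gr_eq (hc : S_conv) (hg : S_green) (Φ : κ ≃ G) (b : G → ℝ) (hb : Sy b) (p : κ)
    (V : κ → ℝ) (z : ℂ) (hz : z.im ≠ 0) :
    Gr (HV (KA (rh Φ) b) V) z p p = GS b (fun g => V (tp Φ p g)) z := by
  have hK : Rs (KA (rh Φ) b) := (hc G κ (rh Φ) (rh_RA Φ) b b hb hb).2.2.1
  have hT : Rs (KT b) := (hc G G (fun s => Equiv.mulRight s) mr_RA b b hb hb).2.2.1
  have h1 := ((hg κ (KA (rh Φ) b) hK).1 V).1.sa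
  have h2 := ((hg G (KT b) hT).1 fun g => V (tp Φ p g)).1.sa
  have h3 := rz_eq (HV (KA (rh Φ) b) V) h1 z hz (dv p)
  have h4 := congrArg (Cf (tp Φ p) (tp Φ p).injective) h3
  rw [map_sub, map_smul, ← inter hc Φ b hb p V] at h4
  have h5 : Cf (tp Φ p) (tp Φ p).injective (dv p) = dv (1 : G) := by
    have h6 := Cf_dv (tp Φ p) (tp Φ p).injective (1 : G)
    rwa [tp_one] at h6
  rw [h5] at h4
  have h7 := rz_uniq _ h2 z hz _ _ h4
  change _ = Rz _ z (dv (1 : G)) (1 : G)
  rw [← h7, Cf_apply, tp_one]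
  rfl

end transport

theorem int_eq {α β : Type} (e : α ≃ β) (ν : Measure ℝ) [IsProbabilityMeasure ν]
    (F : (α → ℝ) → ℝ) :
    ∫ V, F (fun a => V (e a)) ∂(Measure.infinitePi fun _ : β => ν) =
      ∫ W, F W ∂(Measure.infinitePi fun _ : α => ν) := by
  have h := Measure.infinitePi_map_piCongrLeft (fun _ : β => ν) e
  rw [← h, integral_map_equiv]
  refine integral_congr_ae (Eventually.of_forall fun W => ?_)
  change F (fun a => (MeasurableEquiv.piCongrLeft (fun _ : β => ℝ) e) W (e a)) = F W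
  congr 1
  funext a
  exact Equiv.piCongrLeft_apply_apply (fun _ : β => ℝ) e W a

/-! ### The formula for the kinetic energy -/

section formula

variable {d : ℕ} {G : Type} [Group G]

open Classical in
theorem ind_has (g : G) (w : G → ℂ) :
    HasSum (fun s : G => (if s = g then (1 : ℂ) else 0) * w s) (w g) := by
  have h := hasSum_ite_eq (α := ℂ) g (w g)
  have h2 : (fun s : G => (if s = g then (1 : ℂ) else 0) * w s) =
      fun s : G => if s = g then w g else 0 := by
    funext s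
    by_cases hs : s = g
    · rw [if_pos hs, if_pos hs, hs, one_mul]
    · rw [if_neg hs, if_neg hs, zero_mul]
  rw [h2]
  exact h

theorem cast_ind (p : Prop) [h1 : Decidable p] [h2 : Decidable p] :
    ((@ite ℝ p h1 1 0 : ℝ) : ℂ) = @ite ℂ p h2 1 0 := by
  by_cases h : p
  · rw [if_pos h, if_pos h, Complex.ofReal_one]
  · rw [if_neg h, if_neg h, Complex.ofReal_zero]

theorem b0_has (ι : Multiplicative (Fin d → ℤ) →* G) (w : G → ℂ) :
    HasSum (fun s : G => ((b0 ι s : ℝ) : ℂ) * w s)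
      ((2 * d) * w 1 - ∑ i : Fin d, (w (ι (Multiplicative.ofAdd (Pi.single i 1))) +
        w (ι (Multiplicative.ofAdd (Pi.single i (-1)))))) := by
  classical
  have h1 := (ind_has (1 : G) w).mul_left (2 * d : ℂ)
  have h2 : HasSum (fun s : G => ∑ i : Fin d,
      ((if s = ι (Multiplicative.ofAdd (Pi.single i 1)) then (1 : ℂ) else 0) * w s +
        (if s = ι (Multiplicative.ofAdd (Pi.single i (-1))) then (1 : ℂ) else 0) * w s))
      (∑ i : Fin d, (w (ι (Multiplicative.ofAdd (Pi.single i 1))) +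
        w (ι (Multiplicative.ofAdd (Pi.single i (-1)))))) :=
    hasSum_sum fun i _ => (ind_has _ w).add (ind_has _ w)
  have h3 := h1.sub h2
  have h4 : (fun s : G => ((b0 ι s : ℝ) : ℂ) * w s) = fun s : G =>
      (2 * d : ℂ) * ((if s = 1 then (1 : ℂ) else 0) * w s) - ∑ i : Fin d,
      ((if s = ι (Multiplicative.ofAdd (Pi.single i 1)) then (1 : ℂ) else 0) * w s +
        (if s = ι (Multiplicative.ofAdd (Pi.single i (-1))) then (1 : ℂ) else 0) * w s) := by
    funext s
    unfold b0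
    rw [Complex.ofReal_sub, Complex.ofReal_mul, Complex.ofReal_sum, sub_mul, Finset.sum_mul]
    congr 1
    · rw [cast_ind]
      push_cast
      ring
    · refine Finset.sum_congr rfl fun i _ => ?_
      rw [Complex.ofReal_add, cast_ind, cast_ind, add_mul]
  rw [h4]
  exact h3

theorem cv_supp (χ : G →* Multiplicative (Fin d → ℤ)) (s : ℕ → ℕ → G) (N : ℕ → ℕ) (a : ℕ → ℝ)
    (hs : ∀ n j, χ (s n j) = 1) (g : G) (hg : g ∉ χ.ker) : cv s N a g = 0 := by
  classical
  unfold cv
  have h : ∀ n, a n * ((Finset.univ.filter fun j : Fin (N n + 1) => s n j = g).card : ℝ) = 0 := by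
    intro n
    have h1 : (Finset.univ.filter fun j : Fin (N n + 1) => s n j = g) = ∅ := by
      refine Finset.filter_eq_empty_iff.2 fun j _ h2 => hg ?_
      rw [MonoidHom.mem_ker, ← h2]
      exact hs n j
    rw [h1, Finset.card_empty, Nat.cast_zero, mul_zero]
  simp only [h, tsum_zero]

theorem rh_ker (ι : Multiplicative (Fin d → ℤ) →* G) (χ : G →* Multiplicative (Fin d → ℤ))
    (h : ∀ x, χ (ι x) = x) (x : Fin d → ℤ) (f q : χ.ker) :
    rh (Phi ι χ h) (q : G) (x, f) =
      (x, f * MulAut.conjNormal (ι (Multiplicative.ofAdd x)) q) := by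
  rw [rh_apply, Equiv.symm_apply_eq, Phi_apply, Phi_apply]
  change (f : G) * ι (Multiplicative.ofAdd x) * (q : G) =
    ((f * MulAut.conjNormal (ι (Multiplicative.ofAdd x)) q : χ.ker) : G) *
      ι (Multiplicative.ofAdd x)
  rw [Subgroup.coe_mul, MulAut.conjNormal_apply]
  group

theorem rh_io (ι : Multiplicative (Fin d → ℤ) →* G) (χ : G →* Multiplicative (Fin d → ℤ))
    (h : ∀ x, χ (ι x) = x) (x y : Fin d → ℤ) (f : χ.ker) :
    rh (Phi ι χ h) (ι (Multiplicative.ofAdd y)) (x, f) = (x + y, f) := by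
  rw [rh_apply, Equiv.symm_apply_eq, Phi_apply, Phi_apply]
  change (f : G) * ι (Multiplicative.ofAdd x) * ι (Multiplicative.ofAdd y) =
    (f : G) * ι (Multiplicative.ofAdd (x + y))
  rw [ofAdd_add, map_mul, mul_assoc]

end formula

/-- **F3.** -/
theorem lay (hc : S_conv) (hg : S_green) (hw : S_wt) : S_lay := by
  intro d G _ _ ι χ s N a hχ hs hinv ha hsum
  have hinj : Function.Injective ι := fun x y hxy => by
    rw [← hχ x, hxy, hχ]
  obtain ⟨-, hbi, hcv, -⟩ := hw d G ι s N a hinj hinv ha hsum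
  refine ⟨KA (rh (Phi ι χ hχ)) (bi ι s N a),
    (hc G _ (rh (Phi ι χ hχ)) (rh_RA _) _ _ hbi hbi).2.2.1, ?_, ?_⟩
  · intro u x f
    obtain ⟨hcs, -⟩ := (hc G _ (rh (Phi ι χ hχ)) (rh_RA _) _ _ hcv hcv).1 u (x, f)
    have hb := ((hc G _ (rh (Phi ι χ hχ)) (rh_RA _) _ _ hbi hbi).1 u (x, f)).2
    have hsub : Function.support (fun g : G => ((cv s N a g : ℝ) : ℂ) *
        u (rh (Phi ι χ hχ) g (x, f))) ⊆ (χ.ker : Set G) := by
      intro g hgs
      by_contra hgk
      apply hgs
      change ((cv s N a g : ℝ) : ℂ) * _ = 0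
      rw [cv_supp χ s N a hs g hgk, Complex.ofReal_zero, zero_mul]
    have hfun : (fun q : χ.ker => ((cv s N a (q : G) : ℝ) : ℂ) *
          u (x, f * MulAut.conjNormal (ι (Multiplicative.ofAdd x)) q)) =
        (fun g : G => ((cv s N a g : ℝ) : ℂ) * u (rh (Phi ι χ hχ) g (x, f))) ∘
          ((↑) : χ.ker → G) := by
      funext q
      change _ = ((cv s N a (q : G) : ℝ) : ℂ) * u (rh (Phi ι χ hχ) (q : G) (x, f))
      rw [rh_ker]
    constructor
    · rw [hfun]
      exact hcs.comp_injective Subtype.val_injective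
    · rw [hb]
      have h1 := b0_has ι fun g : G => u (rh (Phi ι χ hχ) g (x, f))
      have h2 := h1.add hcs.hasSum
      have h3 : (fun g : G => ((bi ι s N a g : ℝ) : ℂ) * u (rh (Phi ι χ hχ) g (x, f))) =
          fun g : G => ((b0 ι g : ℝ) : ℂ) * u (rh (Phi ι χ hχ) g (x, f)) +
            ((cv s N a g : ℝ) : ℂ) * u (rh (Phi ι χ hχ) g (x, f)) := by
        funext g
        unfold bi
        push_cast
        ring
      rw [h3, h2.tsum_eq]
      have h4 : ∑' q : χ.ker, ((cv s N a (q : G) : ℝ) : ℂ) *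
            u (x, f * MulAut.conjNormal (ι (Multiplicative.ofAdd x)) q) =
          ∑' g : G, ((cv s N a g : ℝ) : ℂ) * u (rh (Phi ι χ hχ) g (x, f)) := by
        rw [hfun]
        exact tsum_subtype_eq_of_support_subset hsub
      rw [h4]
      congr 1
      have h5 : rh (Phi ι χ hχ) 1 (x, f) = (x, f) := (rh_RA _).one _
      rw [h5]
      have h6 : ∀ i : Fin d,
          u (rh (Phi ι χ hχ) (ι (Multiplicative.ofAdd (Pi.single i 1))) (x, f)) +
            u (rh (Phi ι χ hχ) (ι (Multiplicative.ofAdd (Pi.single i (-1)))) (x, f)) =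
          ((u (x + Pi.single i 1, f) - u (x, f)) + (u (x - Pi.single i 1, f) - u (x, f))) +
            2 * u (x, f) := by
        intro i
        rw [rh_io, rh_io]
        have h7 : x + Pi.single i (-1) = x - Pi.single i 1 := by
          rw [sub_eq_add_neg, ← Pi.single_neg]
        rw [h7]
        ring
      rw [Finset.sum_congr rfl fun i _ => h6 i, Finset.sum_add_distrib, Finset.sum_const,
        Finset.card_univ, Fintype.card_fin, nsmul_eq_mul]
      ring
  · intro ν _ z g hz p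
    have h1 := int_eq (tp (Phi ι χ hχ) p) ν fun W => hu (GS (bi ι s N a) W z) g ^ 2
    rw [← h1]
    refine integral_congr_ae (Eventually.of_forall fun V => ?_)
    change hu (Gr (HV (KA (rh (Phi ι χ hχ)) (bi ι s N a)) V) z p p) g ^ 2 =
      hu (GS (bi ι s N a) (fun a => V (tp (Phi ι χ hχ) p a)) z) g ^ 2
    rw [gr_eq hc hg (Phi ι χ hχ) (bi ι s N a) hbi p V z hz.ne']

end Pool.Agent.H619.Z987
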